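import Pool.Agent.Y701.AV.Trunc

/-!
# L-functions of abelian varieties over function fields in towers

Arbitrary Euler products over function fields of one variable over finite fields, in particular the
L-functions of all abelian varieties, over the Galois extensions of degree a power of `ℓ` of the constant
extensions, for a positive proportion of the primes `ℓ`.
-/

set_option autoImplicit false
set_option linter.all false
set_option maxHeartbeats 4000000

open Polynomial FF Module Pool.Agent.W343.BSD Pool.Agent.Y701.GV Pool.Agent.Y701.AV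
open Pool.Agent.Y701.CH Pool.Agent.Y701.CB

namespace Pool.Agent.Results.MP_1d384c_nt.AbelianTowers

/-- The set contains a positive proportion of the primes: there is a constant `c > 0` such that for all
large `N` at least `c π(N)` of the primes up to `N` are in the set. -/
def PositiveDensity (A : Set ℕ) : Prop :=
  ∃ c : ℝ, 0 < c ∧ ∃ N₀ : ℕ, ∀ N : ℕ, N₀ ≤ N →
    c * Nat.primeCounting N ≤ Set.ncard {p : ℕ | p ≤ N ∧ p.Prime ∧ p ∈ A}

section defs

/-- `Λ(T) = ∏ P_v(T ^ (deg v))⁻¹`, the product over the places `v` of `K` over `k`. -/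
def IsProduct (k : Type) {K : Type} [Field k] [Field K] [Algebra k K] (P : Place k K → ℤ[X])
    (Λ : PowerSeries ℤ) : Prop :=
  Λ * eulerProd (fun v : Place k K => S.deg v)
    (fun v => ((expand ℤ (S.deg v) (P v) : ℤ[X]) : PowerSeries ℤ)) = 1

/-- `P = ∏ (1 - α_i T)` and `Q = ∏ (1 - α_i ^ f T)` for complex numbers `α_i`. -/
def IsPower (f : ℕ) (P Q : ℤ[X]) : Prop :=
  ∃ (n : ℕ) (α : Fin n → ℂ), P.map (Int.castRingHom ℂ) = ∏ i, (1 - C (α i) * X) ∧
    Q.map (Int.castRingHom ℂ) = ∏ i, (1 - C (α i ^ f) * X)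

/-- The multiplicity modulo `ℓ` of the zero `q ^ (-b)` of `A`. -/
noncomputable def mult (ℓ : ℕ) [Fact ℓ.Prime] (q b : ℕ) (A : ℤ[X]) : ℕ :=
  (A.map (Int.castRingHom (ZMod ℓ))).rootMultiplicity (((q : ℕ) : ZMod ℓ) ^ b)⁻¹

/-- The order of vanishing of `R` at `q ^ (-b)`. -/
noncomputable def order (q b : ℕ) (R : ℤ[X]) : ℕ :=
  (R.map (Int.castRingHom ℚ)).rootMultiplicity ((q : ℚ) ^ b)⁻¹

/-- The place `w` of `L` lies over the place `v` of `K`, with the ramification index `e`. The fields of
constants `k` and `k'` may be different. -/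
def LiesOver {k K k' L : Type} [Field k] [Field K] [Algebra k K] [Field k'] [Field L]
    [Algebra k' L] [Algebra K L] (w : Place k' L) (v : Place k K) (e : ℕ) : Prop :=
  0 < e ∧ ∀ f : K, w.ord (algebraMap K L f) = e * v.ord f

/-- `K'` is the constant extension of `K` with the field of constants `k'`, whose degree divides
`(ℓ - 1) / 2`, and `L` is a Galois extension of `K'` of degree a power of `ℓ`, with the field of
constants `k''`. The `P_w` are integral polynomials with `P_w(0) = 1` for the places `w` of `L`; for a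
place `w` over the place `v` of `K` outside `T` with residue degree `f`, the reciprocal zeros of `P_w`
are the `f`-th powers of those of `P_v`. A place `w` of `L` which is ramified over `K'` lies over an
element of `T`, or `ℓ` does not divide `P_w(q_w ^ (-b))`. -/
structure IsTower {k K : Type} (k' K' k'' L : Type) [Field k] [Field K] [Algebra k K] [Field k']
    [Field K'] [Algebra k' K'] [Algebra k k'] [Algebra K K'] [Field k''] [Field L]
    [Algebra k'' L] [Algebra K' L] (ℓ : ℕ) [Fact ℓ.Prime] (T : Finset (Place k K))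
    (P : Place k K → ℤ[X]) (P' : Place k'' L → ℤ[X]) (b : ℕ) : Prop where
  curve : IsCurveField k' K'
  constants : finrank K K' = finrank k k'
  degree : finrank k k' ∣ (ℓ - 1) / 2
  curveTop : IsCurveField k'' L
  galois : IsGalois K' L
  power : ∃ s : ℕ, finrank K' L = ℓ ^ s
  constant : ∀ w, (P' w).coeff 0 = 1
  factor : ∀ (v : Place k K) (v' : Place k' K') (w : Place k'' L) (e e' f : ℕ), v ∉ T →
    LiesOver v' v e → LiesOver w v' e' → Nat.card (S.Res w) = Nat.card (S.Res v) ^ f →
    IsPower f (P v) (P' w)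
  ramification : ∀ (v' : Place k' K') (w : Place k'' L) (e : ℕ), LiesOver w v' e → e ≠ 1 →
    (∃ v ∈ T, ∃ e' : ℕ, LiesOver v' v e') ∨
      ((P' w).map (Int.castRingHom (ZMod ℓ))).eval
        (((Nat.card (S.Res w) : ℕ) : ZMod ℓ) ^ b)⁻¹ ≠ 0

end defs

/-- Let `K` be the function field of a curve over the field `k` with `q` elements, and `P_v` any
integral polynomials with `P_v(0) = 1` for the places `v` of `K`, with the product
`Λ(T) = ∏ P_v(T ^ (deg v))⁻¹`. The main example (`b = 1`) is an arbitrary abelian variety `A` over `K`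
with the Euler factors `P_v(T) = det (1 - Frob_v T)` on the invariants of inertia in `V_l(A)`, so that
`Λ = L(A/K, T)`; another is the cohomology of degree `2 b - 1` of a smooth projective variety.

Let `Λ V = (1 - q ^ b T) ^ ρ U` with integral polynomials `U`, `V`, `V(0) = 1`, such that `U` has no
positive real zero. For an abelian variety this is always so, with `ρ` the order of vanishing at
`1 / q` (Grothendieck, Deligne). Let `T` be a finite set of places `v` for which `P_v` has no positive real
zero (for a place of good reduction: the eigenvalue `√q_v` of Frobenius does not occur).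

Then there is a set of primes `ℓ` of positive density, for which `q` is a square (so the degree of
`k(μ_ℓ)` divides `(ℓ - 1) / 2`), such that for ALL constant extensions `K'` of `K` of degree dividing
`(ℓ - 1) / 2`, with field of constants `k'`, and ALL finite Galois extensions `L` of `K'` of degree a
power of `ℓ`, with field of constants `k''`, ramified over `T` or at places `w` where `ℓ` does not
divide `P_w(q_w ^ (-b))` (the number of points of the reduction), the following holds. The Euler factors
`P_w` of `L` at the places outside `T` are those obtained from the `P_v` by raising the reciprocal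
zeros to the power `f`, as they are for an abelian variety with good reduction at the ramified places
outside `T`; over `T` they may be any integral polynomials with `P_w(0) = 1`, so that the reduction
there may be bad and may change. If `Λ_L W = R` with integral polynomials and `W(0) = 1`, then
`[k'' : k'] (mult R - mult W) ≤ [L : K'] ρ` for the multiplicities modulo `ℓ` of the zero
`q'' ^ (-b)`, and the order of vanishing of `R` is at most `mult R`.

If `ρ = 0` and `W` does not vanish modulo `ℓ` at `q'' ^ (-b)` (for example `W = 1`, if `A` has no constant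
part over `L`), then `R` does not vanish there, and its value is not divisible by `ℓ`. So for every
abelian variety `A` over `K` with `L(A/K, 1 / q) ≠ 0` Tate's inequality `rank A(L) ≤ ord L(A/L, T)` gives
`rank A(L) = ord L(A/L, T) = 0`, the conjecture of Birch and Swinnerton-Dyer, over all these fields. -/
theorem result (k K : Type) [Field k] [Finite k] [Field K] [Algebra k K] (hK : IsCurveField k K)
    (P : Place k K → ℤ[X]) (hP : ∀ v, (P v).coeff 0 = 1) (b : ℕ) (Λ : PowerSeries ℤ)
    (hΛ : IsProduct k P Λ) (ρ : ℕ) (U V : ℤ[X]) (hV : V.coeff 0 = 1)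
    (hUV : Λ * (V : PowerSeries ℤ) =
      (((1 - C ((Nat.card k : ℤ) ^ b) * X) ^ ρ * U : ℤ[X]) : PowerSeries ℤ))
    (hU : ∀ x : ℝ, 0 < x → aeval x U ≠ 0)
    (T : Finset (Place k K)) (hT : ∀ v ∈ T, ∀ x : ℝ, 0 < x → aeval x (P v) ≠ 0) :
    ∃ D : Set ℕ, PositiveDensity D ∧ ∀ (ℓ : ℕ) [Fact ℓ.Prime], ℓ ∈ D →
      IsSquare ((Nat.card k : ℕ) : ZMod ℓ) ∧
      ∀ (k' K' k'' L : Type) [Field k'] [Finite k'] [Field K'] [Algebra k' K'] [Algebra k k']
        [Algebra k K'] [Algebra K K'] [IsScalarTower k K K'] [IsScalarTower k k' K'] [Field k'']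
        [Finite k''] [Field L] [Algebra k'' L] [Algebra k' k''] [Algebra k' L] [Algebra K' L]
        [IsScalarTower k' K' L] [IsScalarTower k' k'' L] (P' : Place k'' L → ℤ[X]),
        IsTower k' K' k'' L ℓ T P P' b → ∀ (Λ' : PowerSeries ℤ) (R W : ℤ[X]),
        IsProduct k'' P' Λ' → W.coeff 0 = 1 →
        Λ' * (W : PowerSeries ℤ) = (R : PowerSeries ℤ) →
          finrank k' k'' * mult ℓ (Nat.card k'') b R ≤
            finrank k' k'' * mult ℓ (Nat.card k'') b W + finrank K' L * ρ ∧
          order (Nat.card k'') b R ≤ mult ℓ (Nat.card k'') b R ∧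
          (ρ = 0 → (W.map (Int.castRingHom (ZMod ℓ))).eval
              (((Nat.card k'' : ℕ) : ZMod ℓ) ^ b)⁻¹ ≠ 0 →
            (R.map (Int.castRingHom (ZMod ℓ))).eval (((Nat.card k'' : ℕ) : ZMod ℓ) ^ b)⁻¹ ≠ 0 ∧
            (R.map (Int.castRingHom ℚ)).eval (((Nat.card k'' : ℕ) : ℚ) ^ b)⁻¹ ≠ 0) := by
  classical
  have i0 : FF.IsFF k K := ⟨hK.essFiniteType, hK.trdeg_eq_one⟩
  have hdK : ∀ v : Place k K, v.deg ≠ 0 := fun v => (Pool.Agent.H525R3.FFp.deg_pos v).ne'
  have hΛ1 : Λ * eulerProd (fun v : Place k K => v.deg)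
      (fun v => Pool.Agent.Y701.PE.sub v.deg (P v : PowerSeries ℤ)) = 1 := by
    have h1 := hΛ
    unfold IsProduct at h1
    simp only [S.deg_eq] at h1
    rw [← h1]
    congr 2
    funext v
    exact Pool.Agent.Y701.PE.sub_poly (hdK v) (P v)
  have hcard0 : ∀ (ℓ : ℕ) [Fact ℓ.Prime] (k' : Type) [Field k'] [Finite k'],
      (ℓ : k') ≠ 0 → ((Nat.card k' : ℕ) : ZMod ℓ) ≠ 0 := fun ℓ _ k' _ _ h =>
    card_ne_zero_mod (k := k') h
  -- the primes
  obtain ⟨H, hH⟩ : ∃ H : ℤ[X], H = U * ∏ v ∈ T, P v := ⟨_, rfl⟩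
  have hU0 : U.coeff 0 = 1 := by
    have h1 := congrArg PowerSeries.constantCoeff hUV
    rw [map_mul, cc_euler hP hΛ1, one_mul, cc_coe hV,
      ← PowerSeries.coeff_zero_eq_constantCoeff_apply, Polynomial.coeff_coe, mul_coeff_zero] at h1
    have h2 : ((1 - C ((Nat.card k : ℤ) ^ b) * X : ℤ[X]) ^ ρ).coeff 0 = 1 := by
      rw [coeff_zero_eq_eval_zero, eval_pow]
      simp
    rw [h2, one_mul] at h1
    exact h1.symm
  have hH0 : H.coeff 0 ≠ 0 := by
    rw [hH, mul_coeff_zero, hU0, one_mul, coeff_zero_eq_eval_zero, eval_prod]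
    rw [Finset.prod_congr rfl (fun v _ => by
      rw [← coeff_zero_eq_eval_zero, hP v])]
    simp
  have hreal : ∀ x : ℝ, 0 < x → aeval x H ≠ 0 := by
    intro x hx
    rw [hH, map_mul, map_prod]
    exact mul_ne_zero (hU x hx) (Finset.prod_ne_zero_iff.2 fun v hv => hT v hv x hx)
  have hfin : {ℓ : ℕ | ℓ.Prime ∧ (ℓ : k) = 0}.Finite := by
    apply (Set.finite_Iic (Nat.card k)).subset
    rintro ℓ ⟨hℓ, h0⟩
    have : Fact ℓ.Prime := ⟨hℓ⟩
    by_contra hlt
    rw [Set.mem_Iic, not_le] at hlt
    have hcop : Nat.Coprime ℓ (Nat.card k) :=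
      (Nat.Prime.coprime_iff_not_dvd hℓ).2 fun h => by
        have := Nat.le_of_dvd Nat.card_pos h
        omega
    obtain ⟨u, v, huv⟩ := Nat.isCoprime_iff_coprime.2 hcop
    have h1 := congrArg (Int.cast (R := k)) huv
    push_cast at h1
    have : Fintype k := Fintype.ofFinite k
    have h2 : ((Nat.card k : ℕ) : k) = 0 := by
      rw [Nat.card_eq_fintype_card]
      exact FiniteField.cast_card_eq_zero k
    rw [h0, h2] at h1
    simp at h1
  refine ⟨_, (square_density H hH0 hreal (Nat.card k)).diff hfin, ?_⟩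
  rintro ℓ hℓ ⟨⟨h1, h2, h3, h4⟩, h5⟩
  have hℓk : (ℓ : k) ≠ 0 := fun h => h5 ⟨h1, h⟩
  refine ⟨h3, ?_⟩
  intro k' K' k'' L _ _ _ _ _ _ _ _ _ _ _ _ _ _ _ _ _ _ P' htow Λ' R W hΛ' hW hR
  have j1 : Module.Finite k k' := Module.Finite.of_finite
  have j2 : Module.Finite k' k'' := Module.Finite.of_finite
  have i2 : FiniteDimensional K K' := Module.finite_of_finrank_pos (by
    rw [htow.constants]; exact finrank_pos)
  have i1 : FF.IsFF k' K' := ⟨htow.curve.essFiniteType, htow.curve.trdeg_eq_one⟩
  have i3 : FF.IsFF k K' := isFF_of_finite (K := K)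
  have i4 : FF.IsFF k'' L := ⟨htow.curveTop.essFiniteType, htow.curveTop.trdeg_eq_one⟩
  have hℓ2 : ℓ ≠ 2 := by
    rintro rfl
    norm_num at h2
  have hℓk' : (ℓ : k') ≠ 0 := by
    rw [← map_natCast (algebraMap k k')]
    exact (_root_.map_ne_zero _).2 hℓk
  have hℓk'' : (ℓ : k'') ≠ 0 := by
    rw [← map_natCast (algebraMap k' k'')]
    exact (_root_.map_ne_zero _).2 hℓk'
  have hΛ'1 : Λ' * eulerProd (fun w : Place k'' L => w.deg)
      (fun w => Pool.Agent.Y701.PE.sub w.deg (P' w : PowerSeries ℤ)) = 1 := by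
    have h1 := hΛ'
    unfold IsProduct at h1
    simp only [S.deg_eq] at h1
    rw [← h1]
    congr 2
    funext v
    exact Pool.Agent.Y701.PE.sub_poly (Pool.Agent.H525R3.FFp.deg_pos v).ne' (P' v)
  have hcoe : ∀ (φ : ℤ →+* ZMod ℓ) (z : ZMod ℓ) (A B : ℤ[X]),
      (A.map φ).eval z = 0 → ((A * B).map φ).eval z = 0 := by
    intro φ z A B h
    rw [Polynomial.map_mul, eval_mul, h, zero_mul]
  obtain ⟨hR0, main⟩ := bound_trunc (k := k) (K := K) (k' := k') (K' := K') (k'' := k'') (L := L) hK
    htow.curve htow.curveTop htow.constants hP htow.constant T htow.factor hΛ1 hΛ'1 hV hUV hℓ2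
    hℓk h3 (fun z hz h => h4 z hz (by rw [hH]; exact hcoe _ z _ _ h))
    (fun v hv z hz h => h4 z hz (by
      rw [hH, Polynomial.map_mul, eval_mul, Polynomial.map_prod, eval_prod,
        Finset.prod_eq_zero hv h, mul_zero]))
    htow.degree htow.galois htow.power htow.ramification R W hW hR
  have hRne : R.map (Int.castRingHom (ZMod ℓ)) ≠ 0 := Pool.Agent.Y701.PE.map_ne_of_coeff hR0
  have hord := order_le_mu (b := b) (hcard0 ℓ k'' hℓk'') hRne
  refine ⟨main, hord, ?_⟩
  intro hρ hWn
  have main' : finrank k' k'' * mult ℓ (Nat.card k'') b R ≤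
      finrank k' k'' * mult ℓ (Nat.card k'') b W + finrank K' L * ρ := main
  have h8 : mult ℓ (Nat.card k'') b W = 0 := Polynomial.rootMultiplicity_eq_zero hWn
  rw [h8, hρ, mul_zero, mul_zero] at main'
  have h9 : mult ℓ (Nat.card k'') b R = 0 :=
    (Nat.mul_eq_zero.1 (Nat.le_zero.1 main')).resolve_left finrank_pos.ne'
  have h10 : order (Nat.card k'') b R = 0 := by
    have : order (Nat.card k'') b R ≤ mult ℓ (Nat.card k'') b R := hord
    omega
  have hRQ : R.map (Int.castRingHom ℚ) ≠ 0 := by
    rw [Ne, Polynomial.map_eq_zero_iff (RingHom.injective_int _)]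
    rintro rfl
    simp at hR0
  exact ⟨fun h0 => hRne (Polynomial.rootMultiplicity_eq_zero_iff.1 h9 h0),
    fun h0 => hRQ (Polynomial.rootMultiplicity_eq_zero_iff.1 h10 h0)⟩

end Pool.Agent.Results.MP_1d384c_nt.AbelianTowers
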