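import Pool.Agent.Y160.HI.Fin
import Pool.Agent.Y160.T2.Ex

/-!
# The conjecture of Birch and Swinnerton-Dyer with rank exactly `(m - 1) (q - 1)` for the Jacobians of
# `w ^ q = ∏ (x ^ M + τ - ρ_i) + (β + c t ^ (p ^ d)) ^ q` over finite fields

Let `p` be a prime, `q` a power of `p`, `m ≥ 1` prime to `p`, and `k` a field which contains a primitive
`q`-th root of unity (in BSD: a finite field). Let `ρ_1, …, ρ_m` and `β ≠ 0` be elements of `k` such that
`∏ (x - ρ_i)` and `∏ (x - γ_j) = ∏ (x - ρ_i) + β ^ q` have simple roots in `k`, and suppose that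
the classes in `k* / k* ^ p` of the elements `γ_j - ρ_i` and of `ρ_i - ρ_j` satisfy no other relations
than the obvious ones (`IsResidue`; for finite `k` this says that three matrices of power residue
symbols have maximal rank). Let `M` be prime to `p` and to the characteristic, and `τ` in `k` such that
the binomials `x ^ M + τ - ρ_i` and `x ^ M + τ - γ_j` are irreducible. Let `c ≠ 0` be in `k` and `d ≥ 1`,
and let `J` be the Jacobian over `K = k(t)` of the curve

  `w ^ q = ∏ (x ^ M + τ - ρ_i) + (β + c t ^ (p ^ d)) ^ q`.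

Its dimension is `(q - 1) (m M - 1) / 2`.

Theorem. 1. The `p`-primary part of the Tate-Shafarevich group of `J` is zero, and `J(K)` has a basis
at `p` with `(m - 1) (q - 1)` elements. Hence, if `k` is finite, the rank of `J(K)` is exactly
`(m - 1) (q - 1)` and, by the theorem of Kato and Trihan, the conjecture of Birch and Swinnerton-Dyer
holds for `J`: the order of the `L`-function at `s = 1` is `(m - 1) (q - 1)`.
2. For all `p`, `q`, `m` and every characteristic `p₀ ≠ p` prime to `m` there are a finite field `k`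
of characteristic `p₀`, elements `ρ`, `γ`, `β`, `τ ≠ 0` and `N > 1` which satisfy the conditions for all
`M = N ^ e`, `e ≥ 0`. So over this fixed field the theorem applies for all `e ≥ 0`, `d ≥ 1` and `c ≠ 0`:
the dimension and the conductor of `J` are unbounded; the rank is unbounded when `m` or `q` grows. For
`e ≥ 1` and `m ≥ 2` the curves are not isotrivial.

Method: the branch curve `∏ (x ^ M + τ - ρ_i) + h(t) ^ q = 0`, `h = β + c t ^ (p ^ d)`, is a tower of
Kummer extensions of the line with coordinate `x`. Descent along the layers, with norms and power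
residue symbols instead of irreducible ramification, shows that every function on it whose divisor is
divisible by `p` is a product of a constant, of the functions `x ^ M + τ - ρ_i`, and of a `p`-th power.
This controls the first descent of `J` by `1 - ζ`, which has no obstruction and is generated by the
divisors `x ^ M + τ - ρ_i = 0`, `w = h(t)`.
-/

set_option autoImplicit false

namespace Pool.Agent.Results.MP_1d384c_nt.ExactRankKummerTowers

open Polynomial Pool.Agent.Y160.SL

theorem result {p s m : ℕ} (hp : p.Prime) (hm : 0 < m) (hcop : p.Coprime m) :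
    (∀ (k : Type) [Field k] (ζ : k) (ρ γ : Fin m → k) (β τ c : k) (M d : ℕ),
      IsPrimitiveRoot ζ (p ^ (s + 1)) → IsResidue p (p ^ (s + 1)) ρ γ β → IsBinom p M ρ γ τ →
      0 < d → c ≠ 0 → ∀ (K : Type) [Field K] [Algebra k[X] K] [IsFractionRing k[X] K],
        ShaBasis p (p ^ (s + 1)) (m - 1) k
          ((finSurf (p ^ (s + 1)) M (p ^ d) ρ τ β c).map (algebraMap k[X] K))) ∧
    (∀ p₀ : ℕ, p₀.Prime → p₀ ≠ p → p₀.Coprime m →
      ∃ (k : Type) (_ : Field k) (ζ : k) (ρ γ : Fin m → k) (β τ : k) (N : ℕ), Finite k ∧ CharP k p₀ ∧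
        IsPrimitiveRoot ζ (p ^ (s + 1)) ∧ IsResidue p (p ^ (s + 1)) ρ γ β ∧ τ ≠ 0 ∧ 1 < N ∧
        ∀ e : ℕ, IsBinom p (N ^ e) ρ γ τ) :=
  ⟨fun k _ ζ ρ γ β τ c M d hζ hR hB hd hc K _ _ _ =>
      Pool.Agent.Y160.HI.finFam hp rfl hm hcop hζ hR hB hd hc K,
    fun p₀ hp₀ hne hcop₀ => Pool.Agent.Y160.T2.exF3 hp hm hcop hp₀ hne hcop₀⟩

end Pool.Agent.Results.MP_1d384c_nt.ExactRankKummerTowers
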