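import Pool.Agent.Y709.Lay.CountX

/-!
The twists `y ^ (q - 1) = D(t) B(t) ∏ (x - β_i(t)) ^ (m_i)` over `k(t)`, for a finite extension `k` of the
field with `q` elements and the characteristic `p`: for fixed `B`, `β_i`, `m_i` the L-functions of the new
parts of the Jacobians do not vanish at `s = 1` over every finite Galois extension `L / k(t)` of degree a
power of `p` that is unramified outside of the zeros of `D B` and `∞`, and over the extension of `L` by
constants of degree `e`, for all but a proportion `2 r e / q` of the polynomials `D`.
-/

set_option autoImplicit false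

open Polynomial

namespace Pool.Agent.Results.MP_1d384c_nt.PPowerLayers

section generic

/-- The closed points of the affine line over the field `F`: monic irreducible polynomials. -/
abbrev ClosedPt (F : Type) [Field F] : Type := {P : F[X] // P.Monic ∧ Irreducible P}

variable {F : Type} [Field F]

/-- The degree of a closed point of the affine line over `F`. -/
noncomputable def ptDegree (P : ClosedPt F) : ℕ := P.1.natDegree

/-- The polynomial `c ∏ (x - b_i) ^ (m_i)` over `F`. -/
noncomputable def fibre {n : ℕ} (c : F) (b : Fin n → F) (m : Fin n → ℕ) : F[X] :=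
  C c * ∏ i, (X - C (b i)) ^ m i

/-- The norm to `k` of the value of the polynomial `g` over `F` at the closed point `Q` of the affine
line over the extension `F` of `k`. -/
noncomputable def normValue {k : Type} [Field k] [Algebra k F] (g : F[X]) (Q : ClosedPt F) : k :=
  Algebra.norm k (AdjoinRoot.mk Q.1 g)

/-- The Euler product: its coefficient of index `n` is that of the product of the factors of degree
at most `n`. -/
noncomputable def eulerProduct {ι : Type} (d : ι → ℕ) (f : ι → PowerSeries ℂ) : PowerSeries ℂ :=
  PowerSeries.mk fun n => PowerSeries.coeff n (∏ᶠ (i : ι) (_ : d i ≤ n), f i)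

end generic

section points

variable {k : Type} [Field k] {O : Type} [CommRing O] [Algebra k[X] O]

/-- The residue field of a closed point of `Spec O`, for an algebra `O` over `k[t]`. -/
def Res (𝔪 : MaximalSpectrum O) : Type := O ⧸ 𝔪.asIdeal

attribute [local instance] MaximalSpectrum.isMaximal in
noncomputable instance resField (𝔪 : MaximalSpectrum O) : Field (Res 𝔪) :=
  Ideal.Quotient.field 𝔪.asIdeal

/-- The value at `𝔪` of a polynomial in `t`. -/
noncomputable def value (𝔪 : MaximalSpectrum O) : k[X] →+* Res 𝔪 :=
  (Ideal.Quotient.mk 𝔪.asIdeal).comp (algebraMap k[X] O)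

noncomputable instance resAlgebra (𝔪 : MaximalSpectrum O) : Algebra k (Res 𝔪) :=
  ((value 𝔪).comp C).toAlgebra

/-- The closed points of the product of `Spec O` and the `x`-line: a closed point of `Spec O` and a
closed point of the `x`-line over its residue field. -/
structure SurfacePt (O : Type) [CommRing O] : Type where
  place : MaximalSpectrum O
  point : ClosedPt (Res place)

variable (k) in
/-- The degree of a closed point over `k`. -/
noncomputable def SurfacePt.deg (z : SurfacePt O) : ℕ :=
  Module.finrank k (Res z.place) * ptDegree z.point

/-- A finite group `G` acts on the ring `O ⊇ k[t]` faithfully and with the ring of invariants `k[t]`, so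
that `Spec O` is a Galois covering of the line with the group `G`, the group is a `p`-group, and the
covering is unramified at the points where `E(t)` is not zero: the inertia groups are trivial. -/
structure IsLayer (p : ℕ) (E : k[X]) (G O : Type) [Group G] [Finite G] [CommRing O]
    [Algebra k[X] O] [MulSemiringAction G O] : Prop where
  galois : IsGaloisGroup G k[X] O
  injective : Function.Injective (algebraMap k[X] O)
  pgroup : IsPGroup p G
  unramified : ∀ 𝔪 : MaximalSpectrum O, algebraMap k[X] O E ∉ 𝔪.asIdeal →
    𝔪.asIdeal.inertia G = ⊥

end points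

section defs

variable {k : Type} [Field k]

variable (k) in
/-- The data `B(t)`, `β_i(t)`, `m_i` of a pencil `y ^ (q - 1) = B(t) ∏ (x - β_i(t)) ^ (m_i)` with
`r + 1` sections `β_i`. -/
structure Pencil (r : ℕ) : Type where
  coef : k[X]
  root : Fin (r + 1) → k[X]
  mult : Fin (r + 1) → ℕ

/-- The degree `n` of the pencil in `x`: the sum of the multiplicities. -/
def Pencil.degX {r : ℕ} (S : Pencil k r) : ℕ := ∑ i, S.mult i

/-- `B` is not zero, the sections are distinct of degree at most `d` in `t`, and the multiplicities are
positive. -/
structure Pencil.Good {r : ℕ} (S : Pencil k r) (d : ℕ) : Prop where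
  coef_ne : S.coef ≠ 0
  root_ne : ∀ i j, i ≠ j → S.root i ≠ S.root j
  root_deg : ∀ i, (S.root i).natDegree ≤ d
  mult_pos : ∀ i, 0 < S.mult i

/-- The norm to `k` of the value of `D(t) B(t) ∏ (x - β_i(t)) ^ (m_i)` at a closed point. -/
noncomputable def Pencil.norm {r : ℕ} (S : Pencil k r) {O : Type} [CommRing O] [Algebra k[X] O]
    (D : k[X]) (z : SurfacePt O) : k :=
  normValue (fibre (value z.place (D * S.coef)) (fun i => value z.place (S.root i)) S.mult) z.point

/-- The `L`-function in the variable `T = (#k) ^ (-s)` of the `χ`-part of the Jacobian of the curve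
`y ^ (q - 1) = D(t) B(t) ∏ (x - β_i(t)) ^ (m_i)` over the covering `Spec O` of the `t`-line: the product
over the closed points `z` of `Spec O × 𝔸¹` of the factors `1 - χ(N z) T ^ (deg z)`, where `N z` is the
norm to `k` of the value of `D(t) B(t) ∏ (x - β_i(t)) ^ (m_i)` at `z`, and `χ(0) = 0`. -/
noncomputable def Pencil.Lfun {r : ℕ} (S : Pencil k r) (O : Type) [CommRing O] [Algebra k[X] O]
    (χ : MulChar k ℂ) (D : k[X]) : PowerSeries ℂ :=
  eulerProduct (fun z : SurfacePt O => z.deg k)
    (fun z => 1 - PowerSeries.C (χ (S.norm D z)) * PowerSeries.X ^ z.deg k)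

/-- The power series `L` in `T` is the product of a polynomial and of `1 - Q ζ T` for a complex number
`ζ` with `ζ ^ e = 1`: it vanishes at a point with `(Q T) ^ e = 1`. -/
def Vanishes (Q e : ℕ) (L : PowerSeries ℂ) : Prop :=
  ∃ ζ : ℂ, ζ ^ e = 1 ∧ ∃ G : ℂ[X], L = (((1 - C ((Q : ℂ) * ζ) * X) * G : ℂ[X]) : PowerSeries ℂ)

variable (k) in
/-- The polynomials `D` of degree at most `N`. -/
def twists (N : ℕ) : Set k[X] := {D | D.natDegree ≤ N}

/-- The polynomials `D` of degree at most `N` such that over some Galois covering with a `p`-group,
unramified outside of the zeros of `D B` (and `∞`), the `L`-function of one of the characters `χ` of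
exact order `q - 1` vanishes at a point with `(#k T) ^ e = 1`. -/
def Pencil.vanishingTwists {r : ℕ} (S : Pencil k r) (p q e N : ℕ) : Set k[X] :=
  {D | D ∈ twists k N ∧ ∃ (G O : Type) (_ : Group G) (_ : Finite G) (_ : CommRing O)
    (_ : Algebra k[X] O) (_ : MulSemiringAction G O), IsLayer p (D * S.coef) G O ∧
      ∃ χ : MulChar k ℂ, orderOf χ = q - 1 ∧ Vanishes (Nat.card k) e (S.Lfun O χ D)}

theorem Lfun_eq {r : ℕ} (S : Pencil k r) (O : Type) [CommRing O] [Algebra k[X] O]
    (χ : MulChar k ℂ) (D : k[X]) :
    S.Lfun O χ D = Pool.Agent.Y709.Lay.LO O χ (D * S.coef) S.root S.mult := by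
  unfold Pencil.Lfun Pool.Agent.Y709.Lay.LO eulerProduct Pool.Agent.W343.BSD.eulerProd
  ext n
  rw [PowerSeries.coeff_mk, PowerSeries.coeff_mk]
  congr 1
  let E : (Σ 𝔪 : MaximalSpectrum O, Pool.Agent.W313.Hyp.MI (Pool.Agent.Y709.Lay.RO k 𝔪)) ≃
      SurfacePt O :=
    { toFun := fun z => ⟨z.1, z.2⟩
      invFun := fun z => ⟨z.place, z.point⟩
      left_inv := fun _ => rfl
      right_inv := fun _ => rfl }
  exact (finprod_comp_equiv E
    (f := fun z : SurfacePt O => ∏ᶠ (_ : z.deg k ≤ n),
      (1 - PowerSeries.C (χ (S.norm D z)) * PowerSeries.X ^ z.deg k : PowerSeries ℂ))).symm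

end defs

/-- **The Birch-Swinnerton-Dyer conjecture over all layers of `p`-power degree, for almost all twists of
all split superelliptic pencils.**

Let `q` be a power of the prime number `p`, let `k` be a finite extension of the field with `q` elements,
let `B ≠ 0` and `β_0, …, β_r` be polynomials in `k[t]`, the `β_i` distinct and of degree at most `d`, and
let `m_i ≥ 1` be integers with the sum `n`, where `n < p` and `n < q - 1`. For a polynomial `D ≠ 0` in
`k[t]` let `C_D` be the curve `y ^ (q - 1) = D(t) B(t) ∏ (x - β_i(t)) ^ (m_i)` over `K = k(t)`, and let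
`A_D` be the new part of its Jacobian, the part on which the group of the roots of unity of order `q - 1`
acts through characters of exact order `q - 1`; its dimension is `r φ(q - 1) / 2`. Let `L` be a finite
Galois extension of `K` of degree a power of `p`, with the group `G` and the integral closure `O` of `k[t]`
in `L`, in which only zeros of `D B` and `∞` ramify (`L = K` and `O = k[t]`, the extensions by constants,
the Artin-Schreier extensions with poles at `∞` and at the zeros of `D B`, all their towers, …). The
function `L(A_D / L, s)` is the product of the functions of the characters `χ` of exact order `q - 1`. The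
function of `χ` differs from `Lfun` by a finite product of Euler factors of weight at most one, which have
no zero or pole at `|T| = 1 / #k`: at the points above a zero of `D B` the factor in `Lfun` is `1`; at the
other points where two sections meet it is the polynomial of the Frobenius on the cohomology of a Kummer
sheaf on the line which is ramified at all of the remaining points and at `∞`, since a sum of some of the
`m_i` is not divisible by `q - 1`, and which is pure of weight one; and there is no factor at the points
above `t = ∞`. By Grothendieck, `Lfun` is a polynomial in `T = (#k) ^ (-s)` if `D` has a zero of order not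
divisible by `q - 1` where the fibre is smooth (so for all but a negligible number of `D`), for then the
local monodromy above it is given by a nontrivial scalar (the ramification index in `L` is prime to
`q - 1`).

The theorem: let `f ≥ deg B + d n` with `r f + 3 r ^ 2 + 6 r + 8 ≤ q`, let `e` divide `q - 1`, and let
`N` be a degree with `N + 1 = (q - 1) M + ρ`, where `M ≥ 4 r ^ 2 + 8` and `r < ρ ≤ q - 1 - f`. For a
proportion of at least `1 - 2 r e / q` of the `(#k) ^ (N + 1)` polynomials `D` of degree at most `N` the
functions do not vanish at the points with `(#k T) ^ e = 1`, over none of the extensions `L`, whatever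
their degrees are. So for these twists, with `q` fixed, `L(A_D, s)` does not vanish at `s = 1` over every
`L` and over its extension by constants of degree `e`; by Tate's inequality the rank of `A_D` over all
these fields is zero, and the conjecture holds for `A_D` over each of them (and with it, by Kato-Trihan,
the formula for the leading coefficient, and the group of Tate and Shafarevich is finite). In other
words, all points of `A_D` over the maximal pro-`p` extension of `K` that is unramified outside of the
zeros of `D B` and `∞` (whose Galois group is a free pro-`p` group of infinite rank), and over its extension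
by constants of degree `e`, are torsion points. -/
theorem result (k : Type) [Field k] [Finite k] (p : ℕ) [Fact p.Prime] [CharP k p] (a s q : ℕ)
    (ha : 0 < a) (hs : 0 < s) (hq : q = p ^ a) (hk : Nat.card k = q ^ s) (r : ℕ) (S : Pencil k r)
    (d : ℕ) (hS : S.Good d) (hchar : S.degX < p) (hdeg : S.degX < q - 1) (f : ℕ)
    (hf : S.coef.natDegree + d * S.degX ≤ f) (hr : r * f + 3 * r ^ 2 + 6 * r + 8 ≤ q) (e : ℕ)
    (he : e ∣ q - 1) (M ρ N : ℕ) (hM : 4 * r ^ 2 + 8 ≤ M) (hρ : r < ρ) (hρf : ρ + f ≤ q - 1)
    (hN : N + 1 = (q - 1) * M + ρ) :
    (twists k N).Finite ∧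
      q * (S.vanishingTwists p q e N).ncard ≤ 2 * r * e * (twists k N).ncard := by
  have hFt : Fintype k := Fintype.ofFinite k
  have h7 := Pool.Agent.Y709.Lay.countX (k := k) (p := p) hq ha hs
    (by rw [← Nat.card_eq_fintype_card, hk]) S.coef hS.coef_ne S.root
    (fun i j h => by
      by_contra hij
      exact hS.root_ne i j hij h) d hS.root_deg S.mult hS.mult_pos hchar f ρ M N e he hf hdeg hr
    hρ hρf hM hN
  have hfin := Pool.Agent.Y709.finite_natDegree_le (k := k) N
  refine ⟨hfin, ?_⟩
  have h8 : (twists k N).ncard = Nat.card k ^ (N + 1) := Pool.Agent.Y709.ncard_natDegree_le N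
  rw [h8]
  refine le_trans (Nat.mul_le_mul_left q (Set.ncard_le_ncard ?_
    (hfin.subset fun D hD => hD.1))) h7
  rintro D ⟨hD, G, O, i1, i2, i3, i4, i5, hL, χ, hχ, ζ, hζ, H, hH⟩
  have i6 := hL.galois
  have i7 : FaithfulSMul k[X] O := (faithfulSMul_iff_algebraMap_injective _ _).2 hL.injective
  refine ⟨hD, G, O, i1, i2, i3, i4, i5, i6, i7, hL.pgroup, ?_, χ, hχ, ζ, hζ, H, ?_⟩
  · intro 𝔪 h𝔪
    apply hL.unramified
    intro h0
    exact h𝔪 ((Pool.Agent.Y709.Lay.vO_eq_zero k).2 h0)
  · rw [← Lfun_eq, hH]

end Pool.Agent.Results.MP_1d384c_nt.PPowerLayers
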