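import Pool.Agent.Y701.PE.Eq

/-!
# Jacobians of pencils of plane curves over the `ℓ`-power Galois extensions of `k(t)`

The curves `F(x, y, z) = t G(x, y, z)`, for arbitrary forms `F`, `G` of the same degree.
-/

set_option autoImplicit false
set_option linter.all false
set_option maxHeartbeats 4000000

open Polynomial FF Module Pool.Agent.W343.BSD Pool.Agent.Y701.PE
open scoped LinearAlgebra.Projectivization

namespace Pool.Agent.Results.MP_1d384c_nt.PlaneCurvePencils

section defs

/-- `F` and `G` are forms of degree `d` without a common component, and `D` lists the degrees of the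
closed points of the base locus `F = G = 0`: for each extension `E` of `k` of degree `m` the number of
the points over `E` of the base locus is the sum of the elements of `D` dividing `m`. -/
structure IsPencil {k : Type} [Field k] (d : ℕ) (F G : MvPolynomial (Fin 3) k)
    (D : Multiset ℕ) : Prop where
  homogeneous : F.IsHomogeneous d ∧ G.IsHomogeneous d
  positive : 0 ∉ D
  base : ∀ (m : ℕ) (E : Type) [Field E] [Finite E] (ι : k →+* E), 0 < m →
    Nat.card E = Nat.card k ^ m →
    (((D.filter (· ∣ m)).sum : ℕ) : ℤ) =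
      Nat.card {y : ℙ E (Fin 3 → E) // F.eval₂ ι y.rep = 0 ∧ G.eval₂ ι y.rep = 0}

/-- The product `Λ(T) = ∏ P_w(T ^ (deg w))⁻¹` over the places `w` of `L` (over the field of constants
`k`), where `P_w(T) = exp (-∑ a_w(m) T ^ m / m)` and `1 + Q - a_w(m)` is the number of the points of
the plane curve `F = t(w) G` (of `G = 0` if `t(w) = ∞`) over the extension of degree `m`, with `Q`
elements, of the residue field of `w`. So `P_w(T) / ((1 - T) (1 - q_w T))` is the zeta function of this
curve, and `P_w` is the numerator if the curve is smooth and irreducible. -/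
abbrev IsL (k : Type) {L : Type} [Field k] [Field L] [Algebra k L] (t : L)
    (F G : MvPolynomial (Fin 3) k) (Λ : PowerSeries ℤ) : Prop :=
  IsLFunction k (fun Q => 1 + (Q : ℤ)) t ∅ F G Λ

/-- `P_v`, as in the definition of `IsL`. -/
abbrev IsP {k L : Type} [Field k] [Field L] [Algebra k L] (v : Place k L) (t : L)
    (F G : MvPolynomial (Fin 3) k) (P : PowerSeries ℤ) : Prop :=
  IsNumerator (fun Q => 1 + (Q : ℤ)) v t ∅ F G P

/-- The multiplicity modulo `ℓ` of the zero `1 / q` of `A(T ^ d)`. -/
noncomputable def mult (ℓ : ℕ) [Fact ℓ.Prime] (q d : ℕ) (A : ℤ[X]) : ℕ :=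
  ((expand ℤ d A).map (Int.castRingHom (ZMod ℓ))).rootMultiplicity ((q : ℕ) : ZMod ℓ)⁻¹

/-- The order of vanishing of the polynomial `R` at `1 / q`. -/
noncomputable def order (q : ℕ) (R : ℤ[X]) : ℕ :=
  (R.map (Int.castRingHom ℚ)).rootMultiplicity ((q : ℚ)⁻¹)

/-- The place `w` of `L` lies over the place `v` of `K`, with the ramification index `e`. The fields of
constants `k` and `k'` may be different. -/
def LiesOver {k K k' L : Type} [Field k] [Field K] [Algebra k K] [Field k'] [Field L]
    [Algebra k' L] [Algebra K L] (w : Place k' L) (v : Place k K) (e : ℕ) : Prop :=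
  0 < e ∧ ∀ f : K, w.ord (algebraMap K L f) = e * v.ord f

/-- `L` is a Galois extension of `k(t)` of degree a power of `ℓ` with field of constants `k'`; the
places over `v` have the ramification index `e v`, which is `1` outside the finite set `B`. -/
structure IsLayer (k k' L : Type) [Field k] [Field k'] [Field L] [Algebra k' L] [Algebra k k']
    [Algebra (RatFunc k) L] (ℓ : ℕ) (e : Place k (RatFunc k) → ℕ)
    (B : Finset (Place k (RatFunc k))) : Prop where
  curve : IsCurveField k' L
  galois : IsGalois (RatFunc k) L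
  power : ∃ s : ℕ, finrank (RatFunc k) L = ℓ ^ s
  index : ∀ (v : Place k (RatFunc k)) (w : Place k' L) (n : ℕ), LiesOver w v n → n = e v
  unramified : ∀ v, v ∉ B → e v = 1

end defs

/-- Let `k` be a finite field with `q` elements, of any characteristic, and `F`, `G` forms over `k` of the
same degree in three variables without a common component, whose common zeros form closed points of
the plane of degrees `d` in the multiset `D`. For a finite extension `L` of `k(t)`, with field of
constants `k'`, let `X_L` be the family of the plane curves `F = t(w) G` over the places `w` of `L`, and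
`Λ_L(T)` the product of the `P_w(T ^ (deg w))⁻¹`, so that
`Z(X_L, T) = ζ_L(T) ζ_L(q' T) / Λ_L(T)`, `q' = |k'|`. If the generic curve `C : F = t G` is smooth and `J`
is its Jacobian, then the order of vanishing at `1 / q'` of `Λ_L` is that of `L(T, J/L)` plus the sum
over the places `w` of `L` of `m_w - 1`, `m_w` the number of the irreducible components of `F = t(w) G`
over the residue field.

(1) Over `k(t)` one has `Λ(T) = ∏_d (1 - (q T) ^ d) / (1 - q T)`.

(2) Let `ℓ` be a prime different from the characteristic and `L` any finite Galois extension of `k(t)` of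
degree a power of `ℓ`, with field of constants `k'` and ramification indices `e_v`, and let
`P_v = A_v / C_v` with integral polynomials `A_v`, `C_v` at the ramified places `v`. If `Λ_L W = R` for
integral polynomials `W`, `R` then
`mult R + [L : k(t)] + ∑_v ([L : k(t)] - [L : k(t)] / e_v) mult C_v =
  mult W + [L : k(t)] ∑_d ℓ ^ (ord_ℓ d) + ∑_v ([L : k(t)] - [L : k(t)] / e_v) mult A_v`,
where `mult` are the multiplicities modulo `ℓ` of the zero `1 / q` of `A_v(T ^ (deg v))`,
`C_v(T ^ (deg v))`, `W(T ^ [k' : k])` and `R(T ^ [k' : k])`, and `[k' : k]` times the order of vanishing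
of `R` at `1 / q'` is at most `mult R`.

(3) If there is only one closed base point, of degree not divisible by `ℓ`, and at the ramified places
`v` the `P_v` are polynomials with `P_v(1 / q_v)` not divisible by `ℓ` (for a smooth curve `F = t(v) G`:
`ℓ` does not divide the number of the rational points of its Jacobian), then for `Λ_L` a polynomial
`Λ_L(1 / q')` is not zero and not divisible by `ℓ`. So by Tate's inequality
`rank J(L) = ord L(T, J/L) = 0`, and the conjecture of Birch and Swinnerton-Dyer holds for `J` over `L`; if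
the curves `F = t(v) G` at the ramified places `v` are smooth and there is such a place then `J(L)` has no
`ℓ`-torsion and `Ш(J/L)(ℓ) = 0` by the formula of Kato and Trihan. -/
theorem result (k : Type) [Field k] [Finite k] (d : ℕ) (F G : MvPolynomial (Fin 3) k)
    (D : Multiset ℕ) (hF : IsPencil d F G D) :
    (∀ Λ : PowerSeries ℤ, IsL k (RatFunc.X : RatFunc k) F G Λ →
      Λ * ((1 - C (Nat.card k : ℤ) * X : ℤ[X]) : PowerSeries ℤ) =
        (((D.map fun d => (1 - C ((Nat.card k : ℤ) ^ d) * X ^ d : ℤ[X])).prod : ℤ[X]) :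
          PowerSeries ℤ)) ∧
    ∀ (ℓ : ℕ) [Fact ℓ.Prime], (ℓ : k) ≠ 0 → ∀ (k' L : Type) [Field k'] [Finite k'] [Field L]
      [Algebra k' L] [Algebra k k'] [Algebra k L] [Algebra (RatFunc k) L]
      [IsScalarTower k (RatFunc k) L] [IsScalarTower k k' L] (e : Place k (RatFunc k) → ℕ)
      (B : Finset (Place k (RatFunc k))), IsLayer k k' L ℓ e B →
      ∀ Λ Λ' : PowerSeries ℤ, IsL k (RatFunc.X : RatFunc k) F G Λ →
        IsL k' (algebraMap (RatFunc k) L RatFunc.X) (MvPolynomial.map (algebraMap k k') F)
          (MvPolynomial.map (algebraMap k k') G) Λ' →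
      ∀ (P : Place k (RatFunc k) → PowerSeries ℤ) (A Q : Place k (RatFunc k) → ℤ[X]),
        (∀ v ∈ B, IsP v (RatFunc.X : RatFunc k) F G (P v) ∧
          P v * (Q v : PowerSeries ℤ) = (A v : PowerSeries ℤ) ∧ (Q v).coeff 0 = 1) →
      (∀ W R : ℤ[X], W.coeff 0 = 1 → Λ' * (W : PowerSeries ℤ) = (R : PowerSeries ℤ) →
        mult ℓ (Nat.card k) (finrank k k') R + finrank (RatFunc k) L +
            ∑ v ∈ B, (finrank (RatFunc k) L - finrank (RatFunc k) L / e v) *
              mult ℓ (Nat.card k) (S.deg v) (Q v) =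
          mult ℓ (Nat.card k) (finrank k k') W +
            finrank (RatFunc k) L * (D.map fun d => ℓ ^ padicValNat ℓ d).sum +
            ∑ v ∈ B, (finrank (RatFunc k) L - finrank (RatFunc k) L / e v) *
              mult ℓ (Nat.card k) (S.deg v) (A v) ∧
        finrank k k' * order (Nat.card k') R ≤ mult ℓ (Nat.card k) (finrank k k') R) ∧
      ((∃ d₀ : ℕ, D = {d₀} ∧ ¬ ℓ ∣ d₀) →
        (∀ v ∈ B, e v ≠ 1 → Q v = 1 ∧
          ((A v).map (Int.castRingHom (ZMod ℓ))).eval
            ((Nat.card (S.Res v) : ℕ) : ZMod ℓ)⁻¹ ≠ 0) →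
        ∀ R : ℤ[X], Λ' = (R : PowerSeries ℤ) → order (Nat.card k') R = 0 ∧
          (R.map (Int.castRingHom (ZMod ℓ))).eval ((Nat.card k' : ℕ) : ZMod ℓ)⁻¹ ≠ 0) := by
  classical
  have hbase : IsCount (k := k) {F, G} fun m => ((D.filter (· ∣ m)).sum : ℕ) := by
    intro m E _ _ ι hm hE
    show (((D.filter (· ∣ m)).sum : ℕ) : ℤ) = _
    rw [hF.base m E ι hm hE]
    congr 1
    refine Nat.card_congr (Equiv.subtypeEquivRight fun y => ?_)
    constructor
    · rintro ⟨h1, h2⟩ f (hf | hf)
      · rw [hf]; exact h1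
      · rw [hf]; exact h2
    · intro h
      exact ⟨h F (Or.inl rfl), h G (Or.inr rfl)⟩
  refine ⟨fun Λ hΛ => plane_exact hΛ D hF.positive hbase, ?_⟩
  intro ℓ hℓ hℓk k' L _ _ _ _ _ _ _ _ _ e B hlay Λ Λ' hΛ hΛ' P A Q hP
  have hKc : IsCurveField k (RatFunc k) :=
    { essFiniteType := (inferInstance : FF.IsFF k (RatFunc k)).1
      trdeg_eq_one := (inferInstance : FF.IsFF k (RatFunc k)).2
      algClosed := Pool.Agent.W309.RF.const_rat }
  have hV : (1 - C (Nat.card k : ℤ) * X : ℤ[X]).coeff 0 = 1 := by simp
  have hL' : IsLFunction k' (fun Q => 1 + (Q : ℤ)) (algebraMap (RatFunc k) L RatFunc.X)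
      (MvPolynomial.map (algebraMap k k') '' (∅ : Set (MvPolynomial (Fin 3) k)))
      (MvPolynomial.map (algebraMap k k') F) (MvPolynomial.map (algebraMap k k') G) Λ' := by
    rw [Set.image_empty]
    exact hΛ'
  have hx : ((((Nat.card k : ℕ) : ZMod ℓ)) ^ 1)⁻¹ = ((Nat.card k : ℕ) : ZMod ℓ)⁻¹ := by
    rw [pow_one]
  have hmlt : ∀ (d : ℕ) (A : ℤ[X]), mlt ℓ ((((Nat.card k : ℕ) : ZMod ℓ)) ^ 1)⁻¹ d A =
      mult ℓ (Nat.card k) d A := by
    intro d A
    rw [hx]
    rfl
  have key : ∀ W R : ℤ[X], W.coeff 0 = 1 → Λ' * (W : PowerSeries ℤ) = (R : PowerSeries ℤ) →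
        mult ℓ (Nat.card k) (finrank k k') R + finrank (RatFunc k) L +
            ∑ v ∈ B, (finrank (RatFunc k) L - finrank (RatFunc k) L / e v) *
              mult ℓ (Nat.card k) (S.deg v) (Q v) =
          mult ℓ (Nat.card k) (finrank k k') W +
            finrank (RatFunc k) L * (D.map fun d => ℓ ^ padicValNat ℓ d).sum +
            ∑ v ∈ B, (finrank (RatFunc k) L - finrank (RatFunc k) L / e v) *
              mult ℓ (Nat.card k) (S.deg v) (A v) ∧
        finrank k k' * order (Nat.card k') R ≤ mult ℓ (Nat.card k) (finrank k k') R := by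
    intro W R hW hR
    obtain ⟨h1, h2⟩ := pencil_eq hKc hlay.curve hℓk hlay.galois hlay.power hlay.index B
      hlay.unramified (fun Q => 1 + (Q : ℤ)) (RatFunc.X : RatFunc k) hΛ hL' hV
      (plane_exact hΛ D hF.positive hbase) hP 1 R W hW hR
    rw [mlt_prod hℓk D hF.positive, mlt_lin hℓk, mul_one] at h1
    simp only [hmlt] at h1 h2
    refine ⟨h1, h2 _ ?_⟩
    rw [pow_one]
    rfl
  refine ⟨key, ?_⟩
  rintro ⟨d₀, rfl, hd₀⟩ hv R hR
  obtain ⟨h1, h1'⟩ := key 1 R (by simp) (by rw [Polynomial.coe_one, mul_one]; exact hR)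
  have hone : mult ℓ (Nat.card k) (finrank k k') 1 = 0 := by
    unfold mult
    rw [map_one, Polynomial.map_one, rm_one]
  have hsum : ∑ v ∈ B, (finrank (RatFunc k) L - finrank (RatFunc k) L / e v) *
      mult ℓ (Nat.card k) (S.deg v) (A v) = 0 := by
    refine Finset.sum_eq_zero fun v hvB => ?_
    by_cases he : e v = 1
    · rw [he, Nat.div_one, Nat.sub_self, zero_mul]
    · have h2 := (hv v hvB he).2
      have h3 : mult ℓ (Nat.card k) (S.deg v) (A v) = 0 := by
        unfold mult
        apply Polynomial.rootMultiplicity_eq_zero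
        rw [Polynomial.map_expand, IsRoot.def, Polynomial.expand_eval]
        have h4 : (((Nat.card k : ℕ) : ZMod ℓ)⁻¹) ^ S.deg v =
            ((Nat.card (S.Res v) : ℕ) : ZMod ℓ)⁻¹ := by
          rw [card_res, ← S.deg_eq, inv_pow]
          push_cast
          rfl
        rw [h4]
        exact h2
      rw [h3, mul_zero]
  rw [hsum, hone, Multiset.map_singleton, Multiset.sum_singleton,
    padicValNat.eq_zero_of_not_dvd hd₀, pow_zero, mul_one] at h1
  have i5 : Module.Finite k k' := Module.Finite.of_finite
  have h6 : mult ℓ (Nat.card k) (finrank k k') R = 0 := by omega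
  refine ⟨?_, ?_⟩
  · rw [h6] at h1'
    exact (Nat.mul_eq_zero.1 (Nat.le_zero.1 h1')).resolve_left finrank_pos.ne'
  · have h7 : (expand ℤ (finrank k k') R).map (Int.castRingHom (ZMod ℓ)) ≠ 0 := by
      apply map_ne_of_coeff
      rw [coeff_zero_expand finrank_pos]
      have h8 := cc_lfun' hlay.curve hL'
      rw [hR] at h8
      rwa [← PowerSeries.coeff_zero_eq_constantCoeff_apply, Polynomial.coeff_coe] at h8
    have h9 := (Polynomial.rootMultiplicity_eq_zero_iff.1 h6)
    intro h10
    apply h7
    apply h9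
    rw [Polynomial.map_expand, IsRoot.def, Polynomial.expand_eval]
    have h11 : (((Nat.card k : ℕ) : ZMod ℓ)⁻¹) ^ finrank k k' =
        ((Nat.card k' : ℕ) : ZMod ℓ)⁻¹ := by
      rw [Module.natCard_eq_pow_finrank (K := k) (V := k'), inv_pow]
      push_cast
      rfl
    rw [h11]
    exact h10

end Pool.Agent.Results.MP_1d384c_nt.PlaneCurvePencils
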